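import Pool.Agent.E870.P.Final

/-!
# Murre's conjecture (D) is equivalent to its part of weight zero in the middle dimension

Murre's conjecture (D) says that for every Chow–Künneth decomposition `π` of `X` and every `i` all
homologically trivial classes in `CH^i(X)` lie in `F^1 CH^i(X)`. This contains two different
statements: the homologically trivial classes in `CH^i(h^(2i)(X))` vanish (the part of weight zero),
and the groups `CH^i(h^b(X))` vanish for all `b > 2i` (the first half of Murre's conjecture (B)).
We show that, for the varieties in any class closed under products which contains the curves, the
second statement is a consequence of the first one, and that the first one is needed only for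
`dim X = 2i`. Moreover both are equivalent to a statement on the ring `CH^d(X × X)`, `d = dim X`,
alone: for all `X` and `π` the endomorphism ring of the motive `h^d(X)` acts faithfully on the
middle cohomology group `H^d(X)`.

Proof. Let `a` be a class in `CH^i(h^b(X))`, `b > 2i`, and let `z` be a class of degree zero on a
curve `E`. Then `a × z` lies in `CH^(i+1)(h^(b+1)(X × E))`: the excess `b - 2i` drops by one. By
induction, and by the hypothesis when the excess reaches zero, `a × z = 0` for all curves `E` and all
`z`. This implies `a = 0` (the peeling lemma, `Pool.Agent.E870.P.peel`): let `f : V ⟶ S` be a
degenerating family of curves with the relative class `θ` of degree zero, for example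
`θ = (p) - (o)` on the family of curves `E_b`, `p ∈ E_b`, for a rational elliptic surface. Then
`a × θ` vanishes on the fibres of `f`, so it is supported over curves `T` in `S` by the principle of
Bloch and Srinivas. Intersecting with the class `τ = θ · [fibre over 0]` one finds
`deg(θ · τ) a = 0`, because `τ` vanishes over each curve `T`: there it is a cycle of degree zero on
connected unions of rational curves. The reduction to the middle dimension multiplies a class with
the class `1` or with a point of a curve.
-/

open Pool.Agent.H914 Pool.Agent.R903 Pool.Agent.E870.Q

universe u v w

namespace Pool.Agent.Results.MP_583472_ag.WeightZeroSuffices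

/-- **Murre's conjecture (D) for all varieties of a class is equivalent to its part of weight zero
in the middle dimension, and to the faithfulness of the action of the endomorphisms of `h^d(X)` on
`H^d(X)`, `d = dim X`.** -/
theorem result {k : Type u} [Field k] {𝒱 : VarClass k} {C : ChowTheory.{u, v} 𝒱}
    (W : WeilTheory.{u, v, w} C) (hC : IsGeometric C.toChowData) {P : 𝒱.Obj → Prop}
    (hP : IsClosedClass P) :
    List.TFAE [∀ X, P X → MurreD W X, ∀ X, P X → MurreD0Mid W X, ∀ X, P X → FaithfulMid W X] :=
  Pool.Agent.E870.P.q_tfae_D hC hP

end Pool.Agent.Results.MP_583472_ag.WeightZeroSuffices
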